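import Pool.Agent.N958.TR2.Bnd
import Pool.Agent.N958.TR2.Lay
import Pool.Agent.N958.TR2.Grp

/-!
# Iwasawa's conjecture `μ = 0` for `p = 2` in terms of elliptic curves

Let `a ≡ 1 mod 4` and `c ≠ 0` be integers with `c < 0`, or `a > 0` and `64c < a²`, `D = a² - 64c` and
`E : y² = x³ - 2a x² + D x` (an elliptic curve over `ℚ`, for example of conductor `34` for `a = 33`,
`c = 17`). For a number field `F` of degree `d` let `F_n` be the layers of its cyclotomic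
`ℤ_2`-extension, `r_n` the number of the infinite places of `F_n`, `ρ_n` the 2-rank of the class group
of `F_n` modulo the classes of the primes above `2` and `x_n = rank E(F_n) + dim Ш(E/F_n)[2]`.

* There is a constant `C` which depends on `a` and `c` only with
  `r_n + ρ_n - C d ≤ x_n ≤ r_n + 2ρ_n + C d` for all `F` and all `n`.
* Consequently `μ = 0` for `F` and `p = 2` (that is, `ρ_n` is bounded) if and only if
  `x_n ≤ r_n + O(1)`, for one of these curves `E` or, what is the same, for all of them; and then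
  `x_n = r_n + O(1)`.

The ingredients are the inequalities of helper922 (`Pool/Agent/N922/Q`) for `rank E(K)` and `Ш(E/K)[2]`
over an arbitrary number field `K`, and the finite decomposition of the prime numbers in the cyclotomic
tower (`primes_bound` of helper810).
-/

set_option autoImplicit false

namespace Pool.Agent.Results.MP_d0239a_nt.MuTwoEllipticCurves

open NumberField IsDedekindDomain

/-- `L` is the `n`-th layer of the cyclotomic `ℤ_2`-extension of `ℚ`: the real subfield of degree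
`2 ^ n` of the field of the roots of unity of order `2 ^ (n + 2)`. -/
def Layer (n : ℕ) (L : IntermediateField ℚ ℂ) : Prop :=
  L ≤ IntermediateField.adjoin ℚ {z : ℂ | z ^ (2 ^ (n + 2)) = 1} ∧ Module.finrank ℚ L = 2 ^ n ∧
    ∀ x ∈ L, starRingEnd ℂ x = x

/-- The number of the elements of order dividing two of the class group of `K` modulo the subgroup
generated by the classes of the primes above `2`. -/
noncomputable def classTwo (K : Type) [Field K] [NumberField K] : ℕ :=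
  Nat.card {g : ClassGroup (𝓞 K) ⧸ Subgroup.closure
      {c : ClassGroup (𝓞 K) | ∃ I : nonZeroDivisors (Ideal (𝓞 K)),
        (I : Ideal (𝓞 K)).IsPrime ∧ ((2 : ℕ) : 𝓞 K) ∈ (I : Ideal (𝓞 K)) ∧ ClassGroup.mk0 I = c} //
    g ^ 2 = 1}

/-- `μ = 0` for the cyclotomic `ℤ_2`-extension of `F`, in the form of the frozen statement of the
problem: the numbers `classTwo F_n` are bounded. -/
def MuZero (F : IntermediateField ℚ ℂ) : Prop :=
  ∃ C : ℕ, ∀ (n : ℕ) (L : IntermediateField ℚ ℂ), Layer n L → ∀ [NumberField ↥(F ⊔ L)],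
    classTwo ↥(F ⊔ L) ≤ C

/-- The pairs `(a, c)`: `a ≡ 1 mod 4`, `c ≠ 0`, and `c < 0` or `a > 0`, `64c < a²`. -/
def Admissible (a c : ℤ) : Prop := a % 4 = 1 ∧ c ≠ 0 ∧ (c < 0 ∨ (0 < a ∧ 64 * c < a ^ 2))

/-- The curve `E : y² = x³ - 2a x² + (a² - 64c) x` over `K`. -/
def E (K : Type) [Field K] (a c : ℤ) : WeierstrassCurve K :=
  ⟨0, -2 * (a : K), 0, (a : K) ^ 2 - 64 * (c : K), 0⟩

section

variable {K : Type} [Field K] [NumberField K]

/-- The rank of `W(K)`. -/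
noncomputable def rank (W : WeierstrassCurve K) : ℕ := Pool.Agent.TH841.NF.D.rk W

/-- `Ш(W/K)[2]` -/
def ShaTwo (W : WeierstrassCurve K) : Type := {x : Pool.Agent.TH841.NF.D.Sha W // 2 • x = 0}

/-- `2 ^ rank W(K) * #Ш(W/K)[2]` -/
noncomputable def size (W : WeierstrassCurve K) : ℕ := 2 ^ rank W * Nat.card (ShaTwo W)

end

/-- The number of the infinite places of `K`. -/
noncomputable def infinite (K : Type) [Field K] [NumberField K] : ℕ :=
  InfinitePlace.nrRealPlaces K + InfinitePlace.nrComplexPlaces K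

/-- `rank E(F_n) + dim Ш(E/F_n)[2] ≤ r_n + O(1)` -/
def CurveBounded (a c : ℤ) (F : IntermediateField ℚ ℂ) : Prop :=
  ∃ C : ℕ, ∀ (n : ℕ) (L : IntermediateField ℚ ℂ), Layer n L → ∀ [NumberField ↥(F ⊔ L)],
    size (E ↥(F ⊔ L) a c) ≤ 2 ^ (infinite ↥(F ⊔ L) + C)

/-- the elements of order two of the class group and of its quotient -/
theorem class_compare (K : Type) [Field K] [NumberField K] (s : ℕ)
    (hs : Nat.card (Pool.Agent.N958.TR2.above K 2) ≤ s) :
    classTwo K ≤ Nat.card {g : ClassGroup (𝓞 K) // g ^ 2 = 1} ∧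
      Nat.card {g : ClassGroup (𝓞 K) // g ^ 2 = 1} ≤ 2 ^ s * classTwo K := by
  unfold classTwo
  refine Pool.Agent.N958.TR2.two_quot _ s ?_
  have hfin := Pool.Agent.N958.TR2.above_finite K (x := 2) (by norm_num)
  rw [Nat.card_coe_set_eq] at hs
  refine le_trans ?_ hs
  let f : HeightOneSpectrum (𝓞 K) → ClassGroup (𝓞 K) := fun v =>
    ClassGroup.mk0 ⟨v.asIdeal, mem_nonZeroDivisors_iff_ne_zero.2 v.ne_bot⟩
  refine (Set.ncard_le_ncard (t := f '' (Pool.Agent.N958.TR2.above K 2)) ?_ (hfin.image f)).trans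
    (Set.ncard_image_le hfin)
  rintro g ⟨I, hI, h2, rfl⟩
  refine ⟨⟨(I : Ideal (𝓞 K)), hI, mem_nonZeroDivisors_iff_ne_zero.1 I.2⟩, ?_, rfl⟩
  show ((2 : ℤ) : 𝓞 K) ∈ (I : Ideal (𝓞 K))
  exact_mod_cast h2

/-- **The bounds in the tower.** -/
theorem bounds {a c : ℤ} (h : Admissible a c) :
    ∃ C : ℕ, ∀ F : IntermediateField ℚ ℂ, FiniteDimensional ℚ F →
      ∀ (n : ℕ) (L : IntermediateField ℚ ℂ), Layer n L → ∀ [NumberField ↥(F ⊔ L)],
        Finite (ShaTwo (E ↥(F ⊔ L) a c)) ∧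
        2 ^ infinite ↥(F ⊔ L) * classTwo ↥(F ⊔ L) ≤
          2 ^ (C * Module.finrank ℚ F) * size (E ↥(F ⊔ L) a c) ∧
        size (E ↥(F ⊔ L) a c) ≤
          2 ^ (infinite ↥(F ⊔ L) + C * Module.finrank ℚ F) * classTwo ↥(F ⊔ L) ^ 2 := by
  obtain ⟨ha, hc, hsign⟩ := h
  have hD : a ^ 2 - 64 * c ≠ 0 := by
    rcases hsign with h | ⟨h3, h4⟩
    · nlinarith [sq_nonneg a]
    · linarith
  obtain ⟨t, ht⟩ := Pool.Agent.N958.TR2.tower_int Nat.prime_two hD
  obtain ⟨s, hs⟩ := Pool.Agent.N958.TR2.tower_int Nat.prime_two hc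
  obtain ⟨u, hu⟩ := Pool.Agent.N958.TR2.tower_int Nat.prime_two (x := 2) (by norm_num)
  refine ⟨2 + t + s + 2 * u, fun F hF n L hL _ => ?_⟩
  have h1 := ht F hF (n + 2) L hL.1
  have h2 := hs F hF (n + 2) L hL.1
  have h3 := hu F hF (n + 2) L hL.1
  obtain ⟨c1, c2⟩ := class_compare ↥(F ⊔ L) _ h3
  obtain ⟨f1, l1, u1⟩ := Pool.Agent.N958.TR2.bnd ↥(F ⊔ L) a c ha hc hsign (E ↥(F ⊔ L) a c) rfl
  have hd : 1 ≤ Module.finrank ℚ F := Module.finrank_pos
  obtain ⟨d, hdd⟩ : ∃ d, d = Module.finrank ℚ F := ⟨_, rfl⟩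
  rw [← hdd] at hd h1 h2 h3 c2 ⊢
  have e1 : (2 + t + s + 2 * u) * d = 2 * d + d * t + d * s + 2 * (d * u) := by ring
  have e2 : size (E ↥(F ⊔ L) a c) = 2 ^ Pool.Agent.TH841.NF.D.rk (E ↥(F ⊔ L) a c) *
    Nat.card {x : Pool.Agent.TH841.NF.D.Sha (E ↥(F ⊔ L) a c) // 2 • x = 0} := rfl
  have e3 : InfinitePlace.nrRealPlaces ↥(F ⊔ L) + InfinitePlace.nrComplexPlaces ↥(F ⊔ L) =
    infinite ↥(F ⊔ L) := rfl
  rw [e3] at l1 u1
  obtain ⟨w, hw⟩ : ∃ w, w = Nat.card {g : ClassGroup (𝓞 ↥(F ⊔ L)) // g ^ 2 = 1} := ⟨_, rfl⟩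
  rw [← hw] at l1 u1 c1 c2
  refine ⟨f1, ?_, ?_⟩
  · rw [e1]
    calc 2 ^ infinite ↥(F ⊔ L) * classTwo ↥(F ⊔ L) ≤ 2 ^ infinite ↥(F ⊔ L) * w :=
          Nat.mul_le_mul_left _ c1
      _ ≤ _ := l1
      _ = 2 ^ (2 + Nat.card (Pool.Agent.N958.TR2.above ↥(F ⊔ L) (a ^ 2 - 64 * c))) *
          size (E ↥(F ⊔ L) a c) := by
          rw [e2, add_assoc, pow_add 2 (Pool.Agent.TH841.NF.D.rk (E ↥(F ⊔ L) a c))]
          ring
      _ ≤ _ := Nat.mul_le_mul_right _ (Nat.pow_le_pow_right (by norm_num) (by omega))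
  · rw [e1]
    have hw2 : w ^ 2 ≤ 2 ^ (2 * (d * u)) * classTwo ↥(F ⊔ L) ^ 2 := by
      calc w ^ 2 ≤ (2 ^ (d * u) * classTwo ↥(F ⊔ L)) ^ 2 := Nat.pow_le_pow_left c2 2
        _ = _ := by rw [mul_pow, ← pow_mul, mul_comm (d * u) 2]
    calc size (E ↥(F ⊔ L) a c) ≤ 2 ^ (Pool.Agent.TH841.NF.D.rk (E ↥(F ⊔ L) a c) + 2) *
          Nat.card {x : Pool.Agent.TH841.NF.D.Sha (E ↥(F ⊔ L) a c) // 2 • x = 0} := by
          rw [e2]
          exact Nat.mul_le_mul_right _ (Nat.pow_le_pow_right (by norm_num) (by omega))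
      _ ≤ _ := u1
      _ ≤ 2 ^ (infinite ↥(F ⊔ L) + d * t + d * s) * (2 ^ (2 * (d * u)) * classTwo ↥(F ⊔ L) ^ 2) :=
          Nat.mul_le_mul (Nat.pow_le_pow_right (by norm_num) (by omega)) hw2
      _ = 2 ^ (infinite ↥(F ⊔ L) + d * t + d * s + 2 * (d * u)) * classTwo ↥(F ⊔ L) ^ 2 := by
          rw [pow_add 2 (infinite ↥(F ⊔ L) + d * t + d * s)]
          ring
      _ ≤ _ := Nat.mul_le_mul_right _ (Nat.pow_le_pow_right (by norm_num) (by omega))

/-- **`μ = 0` for `p = 2` and elliptic curves.** -/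
theorem result :
    -- (1) the bounds; the constant depends on the curve only
    (∀ a c : ℤ, Admissible a c → ∃ C : ℕ, ∀ F : IntermediateField ℚ ℂ, FiniteDimensional ℚ F →
      ∀ (n : ℕ) (L : IntermediateField ℚ ℂ), Layer n L → ∀ [NumberField ↥(F ⊔ L)],
        Finite (ShaTwo (E ↥(F ⊔ L) a c)) ∧
        2 ^ infinite ↥(F ⊔ L) * classTwo ↥(F ⊔ L) ≤
          2 ^ (C * Module.finrank ℚ F) * size (E ↥(F ⊔ L) a c) ∧
        size (E ↥(F ⊔ L) a c) ≤
          2 ^ (infinite ↥(F ⊔ L) + C * Module.finrank ℚ F) * classTwo ↥(F ⊔ L) ^ 2) ∧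
    -- (2) the equivalence, for every number field and every curve
    (∀ a c : ℤ, Admissible a c → ∀ F : IntermediateField ℚ ℂ, FiniteDimensional ℚ F →
      (MuZero F ↔ CurveBounded a c F)) := by
  refine ⟨fun a c h => bounds h, fun a c h F hF => ?_⟩
  obtain ⟨C, hC⟩ := bounds h
  constructor
  · rintro ⟨B, hB⟩
    refine ⟨C * Module.finrank ℚ F + 2 * B, fun n L hL _ => ?_⟩
    obtain ⟨-, -, h2⟩ := hC F hF n L hL
    refine h2.trans ?_
    have h3 : classTwo ↥(F ⊔ L) ≤ 2 ^ B := (hB n L hL).trans Nat.lt_two_pow_self.le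
    calc 2 ^ (infinite ↥(F ⊔ L) + C * Module.finrank ℚ F) * classTwo ↥(F ⊔ L) ^ 2
        ≤ 2 ^ (infinite ↥(F ⊔ L) + C * Module.finrank ℚ F) * (2 ^ B) ^ 2 :=
          Nat.mul_le_mul_left _ (Nat.pow_le_pow_left h3 2)
      _ = _ := by
          rw [← pow_mul, ← pow_add]
          congr 1
          ring
  · rintro ⟨B, hB⟩
    refine ⟨2 ^ (C * Module.finrank ℚ F + B), fun n L hL _ => ?_⟩
    obtain ⟨-, h1, -⟩ := hC F hF n L hL
    have h3 : 2 ^ infinite ↥(F ⊔ L) * classTwo ↥(F ⊔ L) ≤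
        2 ^ infinite ↥(F ⊔ L) * 2 ^ (C * Module.finrank ℚ F + B) := by
      refine h1.trans ((Nat.mul_le_mul_left _ (hB n L hL)).trans (le_of_eq ?_))
      rw [← pow_add, ← pow_add]
      congr 1
      ring
    exact Nat.le_of_mul_le_mul_left h3 (by positivity)

end Pool.Agent.Results.MP_d0239a_nt.MuTwoEllipticCurves
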