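import Pool.Agent.N810.MU.RealCM

/-!
# Iwasawa's conjecture on `μ` follows from the cases of fields with a real place and of CM fields

For a prime `p` and a number field `F` let `F_m = F ℚ_m` be the layers of the cyclotomic
`ℤ_p`-extension and `X` the Galois group of the maximal abelian pro-`p` extension of `F^cyc` which is
unramified everywhere and in which the primes above `p` split completely. `X` is finitely generated
over `ℤ_p` (`μ = 0`) if and only if `X / p` is finite, that is, if and only if the degrees `[M : F_m]`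
of the elementary abelian `p`-extensions `M` of the `F_m` which are unramified everywhere and in which
the primes above `p` split completely are bounded. This is `MuZero p F` below. (The primes which ramify
in `F^cyc / F_m` have boundedly many extensions to `F_m`; they change the ranks by a bounded amount.)

We show:

* If `μ = 0` for all number fields with a real place and for all CM fields of degree prime to `p`,
  then `μ = 0` for all number fields. So a counterexample to the conjecture can be found among the
  fields with a real place and the CM fields of degree prime to `p`.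
* More precisely, let `N` be a number field, Galois over `ℚ`, and `c` an element of `Gal(ℚ̄/ℚ)` with
  `c² = 1` on `N`, for instance a complex conjugation. Let `N^c` be the field fixed by `c` and let
  `N_c` be the largest subfield of `N`, Galois over `ℚ`, on which `c` is central. Then `μ = 0` for `N`
  if and only if `μ = 0` for `N^c` and for `N_c`.

All primes `p` are admitted, and `p` may divide the degree of `N`. The proof considers the simple
`𝔽_p[Gal(N/ℚ)]`-modules: if `c` has no fixed vector in such a module, it acts as `-1`. The passage from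
simple modules to `μ` is done by an abstract theorem of the starting library (`Pool.Agent.Q60.MU`) on
group extensions; new are the local conditions at `p`, the bound for the number of primes in the tower
and the two theorems.
-/

set_option autoImplicit false

open Module

open scoped Pointwise

namespace Pool.Agent.Results.MP_d0239a_nt.RealOrCM

/-- the algebraic numbers -/
abbrev Qbar := AlgebraicClosure ℚ

/-- `σ` belongs to the decomposition group of the valuation ring `A` -/
def Decomposition (A : ValuationSubring Qbar) (σ : Gal(Qbar/ℚ)) : Prop := σ • A = A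

/-- `σ` belongs to the inertia group of the valuation ring `A` -/
def Inertia (A : ValuationSubring Qbar) (σ : Gal(Qbar/ℚ)) : Prop :=
  σ • A = A ∧ ∀ x ∈ A, σ x - x ∈ A.nonunits

/-- The extension `M` of `E` is Galois with abelian Galois group of exponent `p` (or `1`). -/
def ElementaryAbelian (p : ℕ) (E M : IntermediateField ℚ Qbar) : Prop :=
  E ≤ M ∧ (∀ σ ∈ E.fixingSubgroup, ∀ x ∈ M, σ x ∈ M) ∧
    (∀ σ ∈ E.fixingSubgroup, ∀ τ ∈ E.fixingSubgroup, ∀ x ∈ M, σ (τ x) = τ (σ x)) ∧
    ∀ σ ∈ E.fixingSubgroup, ∀ x ∈ M, (σ ^ p) x = x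

/-- `M / E` is unramified everywhere, and the primes above `p` split completely: the elements of
`Gal(ℚ̄/E)` in the inertia group of any place, or in the decomposition group of a place above `p`, act
trivially on `M`. -/
def UnramifiedSplit (p : ℕ) (E M : IntermediateField ℚ Qbar) : Prop :=
  ∀ A : ValuationSubring Qbar, ∀ σ ∈ E.fixingSubgroup,
    (Inertia A σ ∨ ((p : Qbar) ∈ A.nonunits ∧ Decomposition A σ)) → ∀ x ∈ M, σ x = x

/-- `ℚ(μ_{p^∞})` -/
noncomputable def Cyc (p : ℕ) : IntermediateField ℚ Qbar :=
  IntermediateField.adjoin ℚ {z | ∃ k : ℕ, z ^ (p ^ k) = 1}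

/-- `E` is one of the layers `ℚ = ℚ_0 ⊂ ℚ_1 ⊂ ...` of the cyclotomic `ℤ_p`-extension of `ℚ`: a real
subfield of `ℚ(μ_{p^∞})` whose degree is a power of `p` -/
def Layer (p : ℕ) (E : IntermediateField ℚ Qbar) : Prop :=
  E ≤ Cyc p ∧ (∃ m : ℕ, finrank ℚ E = p ^ m) ∧ Nonempty (E →+* ℝ)

/-- `μ = 0` for the field `F` and the prime `p`: the degrees over `F ℚ_m` of its elementary abelian
`p`-extensions which are unramified everywhere and split completely above `p` are bounded, uniformly
in `m`. -/
def MuZero (p : ℕ) (F : IntermediateField ℚ Qbar) : Prop :=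
  ∃ C : ℕ, ∀ E, Layer p E → ∀ M : IntermediateField ℚ Qbar, FiniteDimensional ℚ M →
    ElementaryAbelian p (F ⊔ E) M → UnramifiedSplit p (F ⊔ E) M →
    finrank ℚ M ≤ C * finrank ℚ ↥(F ⊔ E)

/-- `F` is the subfield of `N` fixed by `c`. -/
def IsFixed (c : Gal(Qbar/ℚ)) (N F : IntermediateField ℚ Qbar) : Prop :=
  ∀ x, x ∈ F ↔ x ∈ N ∧ c x = x

/-- `F` is the largest subfield of `N`, Galois over `ℚ`, on which `c` commutes with all
automorphisms. -/
def IsCentral (c : Gal(Qbar/ℚ)) (N F : IntermediateField ℚ Qbar) : Prop :=
  ∀ x, x ∈ F ↔ x ∈ N ∧ ∀ g : Gal(Qbar/ℚ), c (g x) = g (c x)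

open Pool.Agent.N810.MU Pool.Agent.Q60.MU

open Classical in
/-- the local conditions -/
noncomputable def J (p : ℕ) (A : ValuationSubring Qbar) : Subgroup Gal(Qbar/ℚ) :=
  if (p : Qbar) ∈ A.nonunits then MulAction.stabilizer Gal(Qbar/ℚ) A else inertia A

theorem smul_nonunits (g : Gal(Qbar/ℚ)) (A : ValuationSubring Qbar) (n : ℕ) :
    (n : Qbar) ∈ (g • A).nonunits ↔ (n : Qbar) ∈ A.nonunits := by
  rw [ValuationSubring.mem_nonunits_iff_or, ValuationSubring.mem_nonunits_iff_or,
    ValuationSubring.mem_pointwise_smul_iff_inv_smul_mem]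
  have h : g⁻¹ • ((n : Qbar)⁻¹) = (n : Qbar)⁻¹ := by
    show g⁻¹ ((n : Qbar)⁻¹) = _
    rw [map_inv₀, map_natCast]
  rw [h]

theorem localCond {p : ℕ} (hp : p.Prime) : LocalCond (J p) := by
  classical
  refine ⟨fun g A σ hσ => ?_, p, hp.ne_zero, fun A hA => ?_⟩
  · unfold J at hσ ⊢
    rw [smul_nonunits]
    split_ifs at hσ ⊢ with h
    · rw [MulAction.mem_stabilizer_iff] at hσ ⊢
      rw [mul_smul, mul_smul, inv_smul_smul, hσ]
    · exact inertia_conj g A σ hσ
  · unfold J
    rw [if_neg hA]

theorem unram_iff {p : ℕ} {E M : IntermediateField ℚ Qbar} :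
    UnramifiedSplit p E M ↔ ∀ A, ∀ σ ∈ J p A, σ ∈ E.fixingSubgroup → ∀ x ∈ M, σ x = x := by
  classical
  constructor
  · intro h A σ hσ hE
    unfold J at hσ
    split_ifs at hσ with hA
    · exact h A σ hE (Or.inr ⟨hA, hσ⟩)
    · exact h A σ hE (Or.inl hσ)
  · rintro h A σ hE (hσ | ⟨hA, hσ⟩)
    · refine h A σ ?_ hE
      unfold J
      split_ifs
      · exact hσ.1
      · exact hσ
    · refine h A σ ?_ hE
      unfold J
      rw [if_pos hA]
      exact hσ

theorem mu_eq {p : ℕ} {F : IntermediateField ℚ Qbar} : MuZero p F ↔ MuZ (J p) p F := by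
  refine exists_congr fun C => forall_congr' fun E => forall_congr' fun _ => ?_
  constructor
  · intro h M h1 h2 h3 h4 h5 h6
    exact h M h2 ⟨h1, h3, h4, h5⟩ (unram_iff.2 h6)
  · rintro h M h2 ⟨h1, h3, h4, h5⟩ h6
    exact h M h1 h2 h3 h4 h5 (unram_iff.1 h6)

/-- **Iwasawa's conjecture on `μ` for all number fields follows from the cases of the fields with a
real place and of the CM fields of degree prime to `p`.** Let `p` be a prime number.

* `μ = 0` for all number fields if and only if `μ = 0` for all number fields with a real place and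
  for all CM fields of degree prime to `p`.
* Let `N` be a number field, Galois over `ℚ`, and `c ∈ Gal(ℚ̄/ℚ)` with `c² = 1` on `N`. If `N₁` is the
  field fixed by `c` and `N₂` the largest subfield of `N`, Galois over `ℚ`, on which `c` is central,
  then `μ = 0` for `N` if and only if `μ = 0` for `N₁` and for `N₂`. -/
theorem result (p : ℕ) (hp : p.Prime) :
    ((∀ F : IntermediateField ℚ Qbar, FiniteDimensional ℚ F → MuZero p F) ↔
      (∀ F : IntermediateField ℚ Qbar, FiniteDimensional ℚ F → Nonempty (F →+* ℝ) → MuZero p F) ∧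
      (∀ F : IntermediateField ℚ Qbar, FiniteDimensional ℚ F → NumberField.IsCMField F →
        ¬ p ∣ finrank ℚ F → MuZero p F)) ∧
    (∀ N : IntermediateField ℚ Qbar, FiniteDimensional ℚ N → IsGalois ℚ N →
      ∀ c : Gal(Qbar/ℚ), (∀ x ∈ N, c (c x) = x) → ∀ N₁ N₂ : IntermediateField ℚ Qbar,
        IsFixed c N N₁ → IsCentral c N N₂ → (MuZero p N ↔ MuZero p N₁ ∧ MuZero p N₂)) := by
  simp only [mu_eq]
  refine ⟨real_cm (localCond hp) hp, fun N hN hNn c hc N₁ N₂ h1 h2 => ?_⟩
  have e1 : N₁ = cfix N c := by
    ext x
    rw [mem_cfix]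
    exact h1 x
  have e2 : N₂ = cpart N c := by
    ext x
    rw [mem_cpart]
    exact h2 x
  rw [e1, e2]
  exact inv_iff (localCond hp) hp N hN hNn c hc

end Pool.Agent.Results.MP_d0239a_nt.RealOrCM
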